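import Pool.Agent.Spiral83.Defs
import Pool.Agent.Spiral83.Param

/-!
# Box dimension of spirals at degenerate foci with unequal exponents

For odd `m > n`, an integer `k ≥ 1` and either sign `σ`, every spiral trajectory near the origin
has box dimension `2 - (1 + n/m)/(1 + 2kn)`.
-/

open MeasureTheory Filter Topology Set

namespace Pool.Agent.Results.MP_7e532d_an.SpiralDim

open Pool.Agent.Spiral83

/-- area asymptotics give the limit of the quotient -/
lemma tendsto_quotient {T : Set ℂ} {e c C δ0 : ℝ} (hc : 0 < c) (hC : 0 < C) (hδ0 : 0 < δ0)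
    (hlow : ∀ δ : ℝ, 0 < δ → δ ≤ δ0 →
      ENNReal.ofReal (c * δ ^ e) ≤ volume (Metric.cthickening δ T))
    (hup : ∀ δ : ℝ, 0 < δ → δ ≤ δ0 →
      volume (Metric.cthickening δ T) ≤ ENNReal.ofReal (C * δ ^ e)) :
    Tendsto (fun ε : ℝ => Real.log (volume.real (Metric.cthickening ε T)) / Real.log ε)
      (𝓝[>] 0) (𝓝 e) := by
  have hlog : Tendsto Real.log (𝓝[>] 0) atBot := Real.tendsto_log_nhdsGT_zero
  have h1 : Tendsto (fun ε : ℝ => Real.log c / Real.log ε + e) (𝓝[>] 0) (𝓝 e) := by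
    have := (hlog.const_div_atBot (Real.log c)).add_const e
    rw [zero_add] at this
    exact this
  have h2 : Tendsto (fun ε : ℝ => Real.log C / Real.log ε + e) (𝓝[>] 0) (𝓝 e) := by
    have := (hlog.const_div_atBot (Real.log C)).add_const e
    rw [zero_add] at this
    exact this
  have hmem : ∀ᶠ ε : ℝ in 𝓝[>] 0, 0 < ε ∧ ε ≤ min δ0 (1 / 2) := by
    have : Ioc (0 : ℝ) (min δ0 (1 / 2)) ∈ 𝓝[>] (0 : ℝ) :=
      Ioc_mem_nhdsGT (lt_min hδ0 (by norm_num))
    filter_upwards [this] with ε hε using hε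
  refine tendsto_of_tendsto_of_tendsto_of_le_of_le' h2 h1 ?_ ?_
  · filter_upwards [hmem] with ε hε
    obtain ⟨hε0, hε1⟩ := hε
    have hεδ := le_trans hε1 (min_le_left _ _)
    have hεh := le_trans hε1 (min_le_right _ _)
    have hlogneg : Real.log ε < 0 := Real.log_neg hε0 (by linarith)
    have hu := hup ε hε0 hεδ
    have hl := hlow ε hε0 hεδ
    have hpe : 0 < ε ^ e := Real.rpow_pos_of_pos hε0 e
    have hfin : volume (Metric.cthickening ε T) ≠ ⊤ := ne_top_of_le_ne_top ENNReal.ofReal_ne_top hu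
    have hpos : 0 < volume.real (Metric.cthickening ε T) := by
      have : c * ε ^ e ≤ volume.real (Metric.cthickening ε T) :=
        (ENNReal.ofReal_le_iff_le_toReal hfin).1 hl
      exact lt_of_lt_of_le (by positivity) this
    have hle : volume.real (Metric.cthickening ε T) ≤ C * ε ^ e :=
      ENNReal.toReal_le_of_le_ofReal (by positivity) hu
    have h3 : Real.log (volume.real (Metric.cthickening ε T)) ≤ Real.log C + e * Real.log ε := by
      rw [← Real.log_rpow hε0, ← Real.log_mul hC.ne' hpe.ne']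
      exact Real.log_le_log hpos hle
    have h4 : Real.log C / Real.log ε + e = (Real.log C + e * Real.log ε) / Real.log ε := by
      rw [add_div, mul_div_cancel_right₀ _ hlogneg.ne]
    rw [h4]
    exact div_le_div_of_nonpos_of_le hlogneg.le h3
  · filter_upwards [hmem] with ε hε
    obtain ⟨hε0, hε1⟩ := hε
    have hεδ := le_trans hε1 (min_le_left _ _)
    have hεh := le_trans hε1 (min_le_right _ _)
    have hlogneg : Real.log ε < 0 := Real.log_neg hε0 (by linarith)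
    have hu := hup ε hε0 hεδ
    have hl := hlow ε hε0 hεδ
    have hpe : 0 < ε ^ e := Real.rpow_pos_of_pos hε0 e
    have hfin : volume (Metric.cthickening ε T) ≠ ⊤ := ne_top_of_le_ne_top ENNReal.ofReal_ne_top hu
    have hge : c * ε ^ e ≤ volume.real (Metric.cthickening ε T) :=
      (ENNReal.ofReal_le_iff_le_toReal hfin).1 hl
    have h3 : Real.log c + e * Real.log ε ≤ Real.log (volume.real (Metric.cthickening ε T)) := by
      rw [← Real.log_rpow hε0, ← Real.log_mul hc.ne' hpe.ne']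
      exact Real.log_le_log (by positivity) hge
    have h4 : Real.log c / Real.log ε + e = (Real.log c + e * Real.log ε) / Real.log ε := by
      rw [add_div, mul_div_cancel_right₀ _ hlogneg.ne]
    rw [h4]
    exact div_le_div_of_nonpos_of_le hlogneg.le h3

/-- reflection does not change the areas -/
lemma volume_conj (T : Set ℂ) (ε : ℝ) :
    volume (Metric.cthickening ε (Complex.conjLIE '' T)) = volume (Metric.cthickening ε T) := by
  have h1 : Complex.conjLIE ⁻¹' (Metric.cthickening ε (Complex.conjLIE '' T)) =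
      Metric.cthickening ε T := by
    ext z
    rw [mem_preimage, Metric.mem_cthickening_iff, Metric.mem_cthickening_iff,
      Metric.infEDist_image Complex.conjLIE.isometry]
  rw [← h1, (Complex.conjLIE.measurePreserving).measure_preimage
    Metric.isClosed_cthickening.measurableSet.nullMeasurableSet]

/-- sets squeezed between two model curves -/
lemma model_dim {m n k : ℕ} {α : ℝ} (hm : Odd m) (hn : Odd n) (hmn : n < m) (hk : 1 ≤ k)
    {a b : ℝ} (ha : a = 1 / (2 * m * k)) (hb : b = 1 / (2 * n * k)) {s0 s1 : ℝ} (hs0 : 0 < s0)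
    {T : Set ℂ} (h1 : gam a b m n k α '' Ici s1 ⊆ T) (h0 : T ⊆ gam a b m n k α '' Ici s0) :
    Tendsto (fun ε : ℝ => Real.log (volume.real (Metric.cthickening ε T)) / Real.log ε)
      (𝓝[>] 0) (𝓝 ((a + b) / (1 + b))) := by
  have hk1 : (1 : ℝ) ≤ k := by exact_mod_cast hk
  have hk0 : (0 : ℝ) < k := by linarith
  have hm0 : (0 : ℝ) < m := by exact_mod_cast hm.pos
  have hn0 : (0 : ℝ) < n := by exact_mod_cast hn.pos
  have hn1 : (1 : ℝ) ≤ n := by exact_mod_cast hn.pos
  have hmn' : (n : ℝ) ≤ m := by exact_mod_cast hmn.le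
  have hapos : 0 < a := by rw [ha]; positivity
  have hbpos : 0 < b := by rw [hb]; positivity
  have hab : a ≤ b := by
    rw [ha, hb]
    gcongr
  have hb1 : b < 1 := by
    rw [hb, div_lt_one (by positivity)]
    nlinarith
  obtain ⟨C, hC, hup⟩ := upper α hm hn hk hapos hab hb1 hs0
  obtain ⟨c, δ0, hc, hδ0, hlow⟩ := lower α hm hn hmn.le hk ha hb s1
  have he : 0 ≤ (a + b) / (1 + b) := by positivity
  refine tendsto_quotient (c := c) (C := C * 2 ^ ((a + b) / (1 + b))) (δ0 := min δ0 (1 / 2)) hc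
    (by positivity) (lt_min hδ0 (by norm_num)) ?_ ?_
  · intro δ hδ hδ'
    exact (hlow δ hδ (le_trans hδ' (min_le_left _ _))).trans
      (measure_mono (Metric.cthickening_subset_of_subset δ h1))
  · intro δ hδ hδ'
    have hδh := le_trans hδ' (min_le_right _ _)
    have h2 := hup (2 * δ) (by positivity) (by linarith)
    refine le_trans (measure_mono ?_) (h2.trans (le_of_eq ?_))
    · exact (Metric.cthickening_subset_of_subset δ h0).trans
        (Metric.cthickening_subset_thickening' (by positivity) (by linarith) _)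
    · rw [Real.mul_rpow (by norm_num) hδ.le]
      congr 1
      ring

/-- a trajectory is squeezed between two model curves -/
lemma squeeze {a b : ℝ} {m n k : ℕ} {α : ℝ} (hm : Odd m) (hn : Odd n)
    (ha : 0 < a) (hb : 0 < b) {z : ℝ → ℂ} {P : ℝ → ℝ} {I : Set ℝ} {U : Set ℂ}
    (hz : ∀ t ∈ I, z t = gam a b m n k α (P t))
    (hcont : ContinuousOn P I)
    (hlim : ((∃ t₀, Ici t₀ ⊆ I) ∧ Tendsto P atTop atTop) ∨
      ((∃ t₀, Iic t₀ ⊆ I) ∧ Tendsto P atBot atTop))
    (hU : U ∈ 𝓝 (0 : ℂ))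
    (hlow : ∃ s0 : ℝ, 0 < s0 ∧ ∀ t ∈ I, z t ∈ U → s0 ≤ P t) :
    ∃ s0 s1 : ℝ, 0 < s0 ∧ gam a b m n k α '' Ici s1 ⊆ (z '' I) ∩ U ∧
      (z '' I) ∩ U ⊆ gam a b m n k α '' Ici s0 := by
  obtain ⟨s0, hs0, hs0'⟩ := hlow
  -- surjectivity onto a half-line
  obtain ⟨v, hv⟩ : ∃ v : ℝ, ∀ s, v ≤ s → ∃ t ∈ I, P t = s := by
    rcases hlim with ⟨⟨t₀, ht₀⟩, hl⟩ | ⟨⟨t₀, ht₀⟩, hl⟩
    · refine ⟨P t₀, fun s hs => ?_⟩
      obtain ⟨t1, ht1, ht1'⟩ : ∃ t1, t₀ ≤ t1 ∧ s ≤ P t1 := by
        have := (hl.eventually_ge_atTop s).and (eventually_ge_atTop t₀)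
        obtain ⟨t1, h1, h2⟩ := this.exists
        exact ⟨t1, h2, h1⟩
      have hsub : Icc t₀ t1 ⊆ I := fun t ht => ht₀ ht.1
      obtain ⟨t, ht, hPt⟩ := intermediate_value_Icc ht1 (hcont.mono hsub) ⟨hs, ht1'⟩
      exact ⟨t, hsub ht, hPt⟩
    · refine ⟨P t₀, fun s hs => ?_⟩
      obtain ⟨t1, ht1, ht1'⟩ : ∃ t1, t1 ≤ t₀ ∧ s ≤ P t1 := by
        have := (hl.eventually_ge_atTop s).and (eventually_le_atBot t₀)
        obtain ⟨t1, h1, h2⟩ := this.exists
        exact ⟨t1, h2, h1⟩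
      have hsub : Icc t1 t₀ ⊆ I := fun t ht => ht₀ ht.2
      obtain ⟨t, ht, hPt⟩ := intermediate_value_Icc' ht1 (hcont.mono hsub) ⟨hs, ht1'⟩
      exact ⟨t, hsub ht, hPt⟩
  -- the model curve tends to the origin
  obtain ⟨r, hr, hrU⟩ := Metric.mem_nhds_iff.1 hU
  have hsmall : ∀ᶠ s : ℝ in atTop, gam a b m n k α s ∈ U := by
    have h1 : Tendsto (fun s : ℝ => s ^ (-a) + s ^ (-b)) atTop (𝓝 (0 + 0)) :=
      (tendsto_rpow_neg_atTop ha).add (tendsto_rpow_neg_atTop hb)
    rw [add_zero] at h1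
    filter_upwards [h1.eventually (gt_mem_nhds hr), eventually_gt_atTop 0] with s hs hs'
    apply hrU
    rw [Metric.mem_ball, dist_zero_right]
    refine lt_of_le_of_lt ?_ hs
    refine (Complex.norm_le_abs_re_add_abs_im _).trans ?_
    have e1 : |(gam a b m n k α s).re| ≤ s ^ (-a) := by
      simp only [gam]
      rw [abs_mul, abs_of_nonneg (Real.rpow_nonneg hs'.le _)]
      exact mul_le_of_le_one_right (Real.rpow_nonneg hs'.le _)
        (abs_ort_le_one hm (Real.abs_cos_le_one _))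
    have e2 : |(gam a b m n k α s).im| ≤ s ^ (-b) := by
      simp only [gam]
      rw [abs_mul, abs_of_nonneg (Real.rpow_nonneg hs'.le _)]
      exact mul_le_of_le_one_right (Real.rpow_nonneg hs'.le _)
        (abs_ort_le_one hn (Real.abs_sin_le_one _))
    linarith
  obtain ⟨w, hw⟩ := eventually_atTop.1 hsmall
  refine ⟨s0, max v w, hs0, ?_, ?_⟩
  · rintro _ ⟨s, hs, rfl⟩
    have hs : max v w ≤ s := hs
    obtain ⟨t, ht, hPt⟩ := hv s (le_trans (le_max_left _ _) hs)
    refine ⟨⟨t, ht, ?_⟩, hw s (le_trans (le_max_right _ _) hs)⟩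
    rw [hz t ht, hPt]
  · rintro _ ⟨⟨t, ht, rfl⟩, hU'⟩
    exact ⟨P t, hs0' t ht hU', (hz t ht).symm⟩

/-- the parameter tends to infinity along the trajectory -/
lemma par_tendsto {m n k : ℕ} (hm : Odd m) (hn : Odd n) (hk : 1 ≤ k) {x y : ℝ → ℝ}
    {l : Filter ℝ} (hx : Tendsto x l (𝓝 0)) (hy : Tendsto y l (𝓝 0))
    (hne : ∀ᶠ t in l, 0 < ((x t ^ m) ^ 2 + (y t ^ n) ^ 2)) :
    Tendsto (fun t => par m n k (x t) (y t)) l atTop := by
  have h1 : Tendsto (fun t => ((x t ^ m) ^ 2 + (y t ^ n) ^ 2) ^ k) l (𝓝 0) := by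
    have := (((hx.pow m).pow 2).add ((hy.pow n).pow 2)).pow k
    rw [zero_pow hm.pos.ne', zero_pow hn.pos.ne'] at this
    simpa [zero_pow (by omega : k ≠ 0)] using this
  have h2 : Tendsto (fun t => ((x t ^ m) ^ 2 + (y t ^ n) ^ 2) ^ k) l (𝓝[>] 0) := by
    rw [tendsto_nhdsWithin_iff]
    refine ⟨h1, ?_⟩
    filter_upwards [hne] with t ht
    exact pow_pos ht k
  exact h2.inv_tendsto_nhdsGT_zero

/-- a bound for the parameter from below on bounded sets -/
lemma par_lower {m n k : ℕ} {x y R : ℝ} (hx : |x| ≤ R) (hy : |y| ≤ R)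
    (hpos : 0 < (x ^ m) ^ 2 + (y ^ n) ^ 2) :
    (((R ^ m) ^ 2 + (R ^ n) ^ 2) ^ k)⁻¹ ≤ par m n k x y := by
  unfold par
  apply inv_anti₀ (pow_pos hpos k)
  apply pow_le_pow_left₀ hpos.le
  apply add_le_add
  · rw [← sq_abs (x ^ m), abs_pow]
    exact pow_le_pow_left₀ (by positivity) (pow_le_pow_left₀ (abs_nonneg _) hx m) 2
  · rw [← sq_abs (y ^ n), abs_pow]
    exact pow_le_pow_left₀ (by positivity) (pow_le_pow_left₀ (abs_nonneg _) hy n) 2

lemma spiral_tendsto {m n k : ℕ} (hm : Odd m) (hn : Odd n) (hmn : n < m) (hk : 1 ≤ k) {σ : ℝ}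
    {S : Set ℂ} (hS : IsSpiral m n k σ S) :
    Tendsto (fun ε : ℝ => Real.log (volume.real (Metric.cthickening ε S)) / Real.log ε)
      (𝓝[>] 0) (𝓝 ((1 + (n : ℝ) / m) / (1 + 2 * k * n))) := by
  obtain ⟨x, y, I, U, hI, hsol, hne, hlim, hU, hUb, rfl⟩ := hS
  have hk1 : (1 : ℝ) ≤ k := by exact_mod_cast hk
  have hk0 : (0 : ℝ) < k := by linarith
  have hm0 : (0 : ℝ) < m := by exact_mod_cast hm.pos
  have hn0 : (0 : ℝ) < n := by exact_mod_cast hn.pos
  have hσ : σ ^ 2 = 1 := by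
    rcases hlim with h | h <;> rw [h.1] <;> norm_num
  obtain ⟨α, hα⟩ := param hm hn hk hσ hI hsol hne
  set a : ℝ := 1 / (2 * m * k) with ha
  set b : ℝ := 1 / (2 * n * k) with hb
  have hapos : 0 < a := by positivity
  have hbpos : 0 < b := by positivity
  have hexp : (a + b) / (1 + b) = (1 + (n : ℝ) / m) / (1 + 2 * k * n) := by
    rw [ha, hb]
    field_simp
    ring
  rw [← hexp]
  have hpos : ∀ t ∈ I, 0 < (x t ^ m) ^ 2 + (y t ^ n) ^ 2 := by
    intro t ht
    have h1 := hne t ht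
    by_contra hcon
    rw [not_lt] at hcon
    have h2 : (x t ^ m) ^ 2 = 0 := by nlinarith [sq_nonneg (x t ^ m), sq_nonneg (y t ^ n)]
    have h3 : (y t ^ n) ^ 2 = 0 := by nlinarith [sq_nonneg (x t ^ m), sq_nonneg (y t ^ n)]
    apply h1
    rw [Prod.mk.injEq]
    exact ⟨eq_zero_of_pow_eq_zero (eq_zero_of_pow_eq_zero h2),
      eq_zero_of_pow_eq_zero (eq_zero_of_pow_eq_zero h3)⟩
  set P : ℝ → ℝ := fun t => par m n k (x t) (y t) with hP
  have hPpos : ∀ t ∈ I, 0 < P t := fun t ht => inv_pos.2 (pow_pos (hpos t ht) k)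
  have hxc : ContinuousOn x I := fun t ht => (hsol t ht).1.continuousWithinAt
  have hyc : ContinuousOn y I := fun t ht => (hsol t ht).2.continuousWithinAt
  have hPc : ContinuousOn P I := by
    apply ContinuousOn.inv₀
    · exact (((hxc.pow m).pow 2).add ((hyc.pow n).pow 2)).pow k
    · intro t ht
      exact (pow_pos (hpos t ht) k).ne'
  have hPlim : ((∃ t₀, Ici t₀ ⊆ I) ∧ Tendsto P atTop atTop) ∨
      ((∃ t₀, Iic t₀ ⊆ I) ∧ Tendsto P atBot atTop) := by
    rcases hlim with ⟨_, ⟨t₀, ht₀⟩, h1, h2⟩ | ⟨_, ⟨t₀, ht₀⟩, h1, h2⟩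
    · left
      refine ⟨⟨t₀, ht₀⟩, par_tendsto hm hn hk h1 h2 ?_⟩
      filter_upwards [eventually_ge_atTop t₀] with t ht using hpos t (ht₀ ht)
    · right
      refine ⟨⟨t₀, ht₀⟩, par_tendsto hm hn hk h1 h2 ?_⟩
      filter_upwards [eventually_le_atBot t₀] with t ht using hpos t (ht₀ ht)
  obtain ⟨R, hR⟩ := hUb.exists_norm_le
  have hRmax : (1 : ℝ) ≤ max R 1 := le_max_right _ _
  have hlow : ∀ t ∈ I, (⟨x t, y t⟩ : ℂ) ∈ U →
      (((max R 1 ^ m) ^ 2 + (max R 1 ^ n) ^ 2) ^ k)⁻¹ ≤ P t := by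
    intro t ht htU
    have h1 := hR _ htU
    have h2 := Complex.abs_re_le_norm (⟨x t, y t⟩ : ℂ)
    have h3 := Complex.abs_im_le_norm (⟨x t, y t⟩ : ℂ)
    simp only at h2 h3
    have h4 := le_max_left R 1
    exact par_lower (by linarith) (by linarith) (hpos t ht)
  have hlowpos : 0 < (((max R 1 ^ m) ^ 2 + (max R 1 ^ n) ^ 2) ^ k)⁻¹ := by positivity
  rcases hlim with ⟨hσ1, _⟩ | ⟨hσ1, _⟩
  · -- σ = -1
    have hz : ∀ t ∈ I, (⟨x t, y t⟩ : ℂ) = gam a b m n k α (P t) := by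
      intro t ht
      obtain ⟨h1, h2⟩ := hα t ht
      rw [hσ1, neg_neg, one_mul] at h1 h2
      apply Complex.ext
      · rw [gam_re hm (hPpos t ht) ha, ← h1]
        exact ort_unique hm rfl
      · rw [gam_im hn (hPpos t ht) hb, ← h2]
        exact ort_unique hn rfl
    obtain ⟨s0, s1, hs0, hsub1, hsub0⟩ := squeeze (z := fun t => (⟨x t, y t⟩ : ℂ)) hm hn hapos hbpos
      hz hPc hPlim hU ⟨_, hlowpos, hlow⟩
    exact model_dim hm hn hmn hk ha hb hs0 hsub1 hsub0
  · -- σ = 1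
    have hz : ∀ t ∈ I, (⟨x t, -y t⟩ : ℂ) = gam a b m n k (-α) (P t) := by
      intro t ht
      obtain ⟨h1, h2⟩ := hα t ht
      rw [hσ1] at h1 h2
      have e1 : -1 * (par m n k (x t) (y t) / (2 * (k : ℝ))) + α =
          -(P t / (2 * k) + -α) := by simp only [hP]; ring
      rw [e1] at h1 h2
      rw [Real.cos_neg] at h1
      rw [Real.sin_neg] at h2
      apply Complex.ext
      · rw [gam_re hm (hPpos t ht) ha, ← h1]
        exact ort_unique hm rfl
      · rw [gam_im hn (hPpos t ht) hb]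
        have h3 : (-y t) ^ n = P t ^ (-(1 / (2 * (k : ℝ)))) * Real.sin (P t / (2 * k) + -α) := by
          rw [hn.neg_pow, h2]; ring
        exact ort_unique hn h3
    obtain ⟨s0, s1, hs0, hsub1, hsub0⟩ := squeeze (z := fun t => (⟨x t, -y t⟩ : ℂ))
      (U := Complex.conjLIE ⁻¹' U) hm hn hapos hbpos
      hz hPc hPlim (by
        apply Complex.conjLIE.continuous.continuousAt
        simpa using hU) ⟨_, hlowpos, fun t ht htU => hlow t ht (by
          rw [mem_preimage] at htU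
          have e : Complex.conjLIE (⟨x t, -y t⟩ : ℂ) = ⟨x t, y t⟩ := by
            apply Complex.ext <;> simp
          rwa [e] at htU)⟩
    have himg : Complex.conjLIE '' (((fun t => (⟨x t, y t⟩ : ℂ)) '' I) ∩ U) =
        ((fun t => (⟨x t, -y t⟩ : ℂ)) '' I) ∩ (Complex.conjLIE ⁻¹' U) := by
      ext w
      constructor
      · rintro ⟨_, ⟨⟨t, ht, rfl⟩, htU⟩, rfl⟩
        refine ⟨⟨t, ht, ?_⟩, ?_⟩
        · apply Complex.ext <;> simp
        · rw [mem_preimage]
          have e : Complex.conjLIE (Complex.conjLIE (⟨x t, y t⟩ : ℂ)) = ⟨x t, y t⟩ := by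
            apply Complex.ext <;> simp
          simp only
          rw [e]
          exact htU
      · rintro ⟨⟨t, ht, rfl⟩, htU⟩
        refine ⟨⟨x t, y t⟩, ⟨⟨t, ht, rfl⟩, ?_⟩, ?_⟩
        · rw [mem_preimage] at htU
          have e : Complex.conjLIE (⟨x t, -y t⟩ : ℂ) = ⟨x t, y t⟩ := by
            apply Complex.ext <;> simp
          simp only at htU
          rwa [e] at htU
        · apply Complex.ext <;> simp
    have := model_dim hm hn hmn hk ha hb hs0 hsub1 hsub0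
    rw [← himg] at this
    have hvol : ∀ ε : ℝ, volume.real (Metric.cthickening ε
        (Complex.conjLIE '' (((fun t => (⟨x t, y t⟩ : ℂ)) '' I) ∩ U))) =
        volume.real (Metric.cthickening ε (((fun t => (⟨x t, y t⟩ : ℂ)) '' I) ∩ U)) := by
      intro ε
      rw [measureReal_def, measureReal_def, volume_conj]
    simp only [hvol] at this
    exact this

/-- **Main theorem.**  For odd `m > n`, an integer `k ≥ 1` and `σ = ±1`, every spiral trajectory
near the origin has box dimension `2 - (1 + n/m)/(1 + 2kn)`. -/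
theorem result (m n k : ℕ) (hm : Odd m) (hn : Odd n) (hmn : n < m) (hk : 1 ≤ k)
    (σ : ℝ) (S : Set ℂ) (hS : IsSpiral m n k σ S) :
    upperBoxDim S = ((2 - (1 + (n : ℝ) / m) / (1 + 2 * k * n) : ℝ) : EReal) ∧
      lowerBoxDim S = ((2 - (1 + (n : ℝ) / m) / (1 + 2 * k * n) : ℝ) : EReal) := by
  have h := spiral_tendsto hm hn hmn hk hS
  have h' : Tendsto (areaQuotient S) (𝓝[>] (0 : ℝ))
      (𝓝 (((1 + (n : ℝ) / m) / (1 + 2 * k * n) : ℝ) : EReal)) :=
    (continuous_coe_real_ereal.tendsto _).comp h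
  unfold upperBoxDim lowerBoxDim
  rw [h'.liminf_eq, h'.limsup_eq]
  have e : ((2 - (1 + (n : ℝ) / m) / (1 + 2 * k * n) : ℝ) : EReal) =
      2 - (((1 + (n : ℝ) / m) / (1 + 2 * k * n) : ℝ) : EReal) := by
    rw [EReal.coe_sub]
    rfl
  rw [e]
  exact ⟨rfl, rfl⟩

end Pool.Agent.Results.MP_7e532d_an.SpiralDim
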